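import Mathlib

/-!
# Formally etale coordinates from a basis of the cotangent space
-/

set_option autoImplicit false
set_option linter.unusedSectionVars false

namespace Pool.Agent.Helper45.SE

open MvPolynomial TensorProduct

/-- Formally etale from the differentials. -/
theorem etale_of_bij (k S T : Type) [CommRing k] [CommRing S] [CommRing T] [Algebra k S]
    [Algebra k T] [Algebra S T] [IsScalarTower k S T] [Algebra.FormallySmooth k T]
    (h : Function.Bijective (KaehlerDifferential.mapBaseChange k S T)) :
    Algebra.FormallyEtale S T := by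
  have h1 : Subsingleton (Algebra.H1Cotangent S T) := by
    have h2 := Algebra.H1Cotangent.exact_map_δ k S T
    have h3 := Algebra.H1Cotangent.exact_δ_mapBaseChange k S T
    refine ⟨fun x y => ?_⟩
    have h4 : ∀ x : Algebra.H1Cotangent S T, x = 0 := by
      intro x
      have h5 : Algebra.H1Cotangent.δ k S T x = 0 := by
        apply h.1
        rw [map_zero]
        exact (h3 _).2 ⟨x, rfl⟩
      obtain ⟨z, hz⟩ := (h2 x).1 h5
      rw [← hz, Subsingleton.elim z 0, map_zero]
    rw [h4 x, h4 y]
  have h2 : Subsingleton (Ω[T⁄S]) := by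
    have h3 := KaehlerDifferential.exact_mapBaseChange_map k S T
    refine ⟨fun x y => ?_⟩
    have h4 : ∀ x : Ω[T⁄S], x = 0 := by
      intro x
      obtain ⟨z, rfl⟩ := KaehlerDifferential.map_surjective k S T x
      exact (h3 z).2 (h.2 z)
    rw [h4 x, h4 y]
  have h3 : Algebra.FormallySmooth S T := ⟨inferInstance, h1⟩
  have h4 : Algebra.FormallyUnramified S T := ⟨h2⟩
  exact Algebra.FormallyEtale.iff_formallyUnramified_and_formallySmooth.2 ⟨h4, h3⟩

/-- A family in a finite projective module over a local ring which generates modulo the maximal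
ideal and is linearly independent modulo the maximal ideal is a basis. -/
theorem bij_of_local (O P : Type) [CommRing O] [IsLocalRing O] [AddCommGroup P] [Module O P]
    [Module.Finite O P] [Module.Projective O P] {n : ℕ} (v : Fin n → P)
    (hs : Submodule.span O (Set.range v) ⊔ IsLocalRing.maximalIdeal O • (⊤ : Submodule O P) = ⊤)
    (lam : Fin n → P →ₗ[O] (O ⧸ IsLocalRing.maximalIdeal O))
    (hl : ∀ i j, lam j (v i) = if i = j then 1 else 0) :
    Function.Bijective (Fintype.linearCombination O v) := by
  classical
  set φ := Fintype.linearCombination O v with hφ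
  have hr : LinearMap.range φ = Submodule.span O (Set.range v) :=
    Fintype.range_linearCombination O v
  have hsurj : Function.Surjective φ := by
    rw [← LinearMap.range_eq_top, hr]
    have h1 : (⊤ : Submodule O P) ≤ Submodule.span O (Set.range v) := by
      refine Submodule.le_of_le_smul_of_le_jacobson_bot (I := IsLocalRing.maximalIdeal O)
        Module.Finite.fg_top (IsLocalRing.maximalIdeal_le_jacobson _) ?_
      rw [hs]
    exact top_le_iff.1 h1
  refine ⟨?_, hsurj⟩
  obtain ⟨s, hs2⟩ := Module.projective_lifting_property φ LinearMap.id hsurj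
  have hs3 : ∀ x, φ (s x) = x := fun x => LinearMap.congr_fun hs2 x
  -- the kernel
  have hker : LinearMap.ker φ = LinearMap.range (LinearMap.id - s ∘ₗ φ) := by
    ext x
    constructor
    · intro hx
      refine ⟨x, ?_⟩
      rw [LinearMap.sub_apply, LinearMap.id_apply, LinearMap.comp_apply, LinearMap.mem_ker.1 hx,
        map_zero, sub_zero]
    · rintro ⟨z, rfl⟩
      rw [LinearMap.mem_ker, LinearMap.sub_apply, LinearMap.id_apply, LinearMap.comp_apply,
        map_sub, hs3, sub_self]
  have hfg : (LinearMap.ker φ).FG := by
    rw [hker, LinearMap.range_eq_map]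
    exact Module.Finite.fg_top.map _
  have hle : LinearMap.ker φ ≤ IsLocalRing.maximalIdeal O • LinearMap.ker φ := by
    intro x hx
    have hx0 : φ x = 0 := hx
    have h1 : ∀ j, x j ∈ IsLocalRing.maximalIdeal O := by
      intro j
      have h2 : lam j (φ x) = 0 := by rw [hx0, map_zero]
      rw [hφ, Fintype.linearCombination_apply, map_sum] at h2
      simp only [map_smul, hl, smul_ite, smul_zero, Finset.sum_ite_eq', Finset.mem_univ,
        if_true] at h2
      rw [← Ideal.Quotient.eq_zero_iff_mem]
      rw [← h2, Algebra.smul_def, mul_one]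
      rfl
    have h3 : x = (LinearMap.id - s ∘ₗ φ : (Fin n → O) →ₗ[O] (Fin n → O)) x := by
      rw [LinearMap.sub_apply, LinearMap.id_apply, LinearMap.comp_apply, hx0, map_zero, sub_zero]
    rw [h3, LinearMap.pi_apply_eq_sum_univ (LinearMap.id - s ∘ₗ φ : (Fin n → O) →ₗ[O] (Fin n → O)) x]
    refine Submodule.sum_mem _ fun j _ => Submodule.smul_mem_smul (h1 j) ?_
    rw [hker]
    exact ⟨_, rfl⟩
  have hbot : LinearMap.ker φ = ⊥ :=
    Submodule.eq_bot_of_le_smul_of_le_jacobson_bot (IsLocalRing.maximalIdeal O) _ hfg hle
      (IsLocalRing.maximalIdeal_le_jacobson _)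
  exact LinearMap.ker_eq_bot.1 hbot

end Pool.Agent.Helper45.SE
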