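import Pool.Agent.Helper45.SE.T1

/-!
# Formally etale coordinates from a complement of the square of the maximal ideal
-/

set_option autoImplicit false
set_option linter.unusedSectionVars false

namespace Pool.Agent.Helper45.SE

open MvPolynomial TensorProduct

section

variable {k O : Type} [Field k] [CommRing O] [Algebra k O] [IsLocalRing O]

/-- The maximal ideal as a vector space. -/
noncomputable def MM (k O : Type) [Field k] [CommRing O] [Algebra k O] [IsLocalRing O] :
    Submodule k O :=
  (IsLocalRing.maximalIdeal O).restrictScalars k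

/-- The square of the maximal ideal as a vector space. -/
noncomputable def MM2 (k O : Type) [Field k] [CommRing O] [Algebra k O] [IsLocalRing O] :
    Submodule k O :=
  (IsLocalRing.maximalIdeal O ^ 2).restrictScalars k

lemma mem_MM {x : O} : x ∈ MM k O ↔ x ∈ IsLocalRing.maximalIdeal O := Iff.rfl

lemma mem_MM2 {x : O} : x ∈ MM2 k O ↔ x ∈ IsLocalRing.maximalIdeal O ^ 2 := Iff.rfl

lemma MM2_le : MM2 k O ≤ MM k O := fun _ hx => Ideal.pow_le_self two_ne_zero hx

/-- The derivation defined by a linear functional which vanishes on the square of the maximal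
ideal. -/
noncomputable def der (ev : O →ₐ[k] k) (hev : ∀ x, ev x = 0 ↔ x ∈ IsLocalRing.maximalIdeal O)
    (f : O →ₗ[k] k) (hf : ∀ x ∈ MM2 k O, f x = 0) :
    Derivation k O (O ⧸ IsLocalRing.maximalIdeal O) where
  toFun x := algebraMap k _ (f (x - algebraMap k O (ev x)))
  map_add' x y := by
    rw [← map_add, ← map_add]
    congr 2
    rw [map_add, map_add]
    ring
  map_smul' c x := by
    rw [RingHom.id_apply, map_smul, Algebra.smul_def c (x : O), smul_eq_mul, map_mul,
      ← mul_sub, ← Algebra.smul_def, map_smul, smul_eq_mul, map_mul, Algebra.smul_def]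
  map_one_eq_zero' := by
    change algebraMap k _ (f (1 - algebraMap k O (ev 1))) = 0
    rw [map_one, map_one, sub_self, map_zero, map_zero]
  leibniz' x y := by
    change algebraMap k _ (f (x * y - algebraMap k O (ev (x * y)))) =
      x • algebraMap k _ (f (y - algebraMap k O (ev y))) +
      y • algebraMap k _ (f (x - algebraMap k O (ev x)))
    have h0 : ∀ z : O, z - algebraMap k O (ev z) ∈ IsLocalRing.maximalIdeal O := by
      intro z
      rw [← hev, map_sub, AlgHom.commutes]
      simp
    have h1 : ∀ (z : O) (c : k), z • algebraMap k (O ⧸ IsLocalRing.maximalIdeal O) c =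
        algebraMap k _ (ev z * c) := by
      intro z c
      rw [Algebra.smul_def, map_mul]
      congr 1
      have := Ideal.Quotient.eq_zero_iff_mem.2 (h0 z)
      rw [map_sub, sub_eq_zero] at this
      exact this
    rw [h1, h1, ← map_add]
    congr 1
    have h2 : x * y - algebraMap k O (ev (x * y)) =
        (x - algebraMap k O (ev x)) * (y - algebraMap k O (ev y)) +
        ev x • (y - algebraMap k O (ev y)) + ev y • (x - algebraMap k O (ev x)) := by
      rw [Algebra.smul_def, Algebra.smul_def, map_mul, map_mul]
      ring
    rw [h2, map_add, map_add, map_smul, map_smul, hf _ (by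
      rw [mem_MM2, pow_two]
      exact Ideal.mul_mem_mul (h0 x) (h0 y)), zero_add]
    rfl

lemma der_apply (ev : O →ₐ[k] k) (hev : ∀ x, ev x = 0 ↔ x ∈ IsLocalRing.maximalIdeal O)
    (f : O →ₗ[k] k) (hf : ∀ x ∈ MM2 k O, f x = 0) {x : O}
    (hx : x ∈ IsLocalRing.maximalIdeal O) :
    der ev hev f hf x = algebraMap k _ (f x) := by
  change algebraMap k _ (f (x - algebraMap k O (ev x))) = _
  rw [(hev x).2 hx, map_zero, sub_zero]

/-- Formally etale coordinates from a basis of a complement of the square of the maximal ideal. -/
theorem etale_of_basis (ev : O →ₐ[k] k)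
    (hev : ∀ x, ev x = 0 ↔ x ∈ IsLocalRing.maximalIdeal O) [Algebra.FormallySmooth k O]
    [Module.Finite O (Ω[O⁄k])] (W : Submodule k O) (h1 : W ⊔ MM2 k O = MM k O)
    (h2 : Disjoint W (MM2 k O)) {n : ℕ} (b : Module.Basis (Fin n) k W) :
    ((aeval (fun i => (b i : O)) : MvPolynomial (Fin n) k →ₐ[k] O).toRingHom).FormallyEtale := by
  classical
  set y : Fin n → O := fun i => (b i : O) with hy
  have hW : W ≤ MM k O := h1 ▸ le_sup_left
  have hyM : ∀ i, y i ∈ IsLocalRing.maximalIdeal O := fun i => hW (b i).2
  -- the dual functionals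
  have hli : LinearIndependent k fun i => (MM2 k O).mkQ (y i) := by
    have h3 : LinearIndependent k y := b.linearIndependent.map' W.subtype W.ker_subtype
    refine h3.map ?_
    rw [Submodule.ker_mkQ]
    refine h2.mono_left ?_
    rw [Submodule.span_le]
    rintro _ ⟨i, rfl⟩
    exact (b i).2
  obtain ⟨F, hF⟩ := LinearMap.exists_leftInverse_of_injective
    (Fintype.linearCombination k fun i => (MM2 k O).mkQ (y i))
    (LinearMap.ker_eq_bot.2 (by
      exact linearIndependent_iff_injective_fintypeLinearCombination.1 hli))
  have hF2 : ∀ i j, F ((MM2 k O).mkQ (y i)) j = if i = j then 1 else 0 := by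
    intro i j
    have h3 := LinearMap.congr_fun hF (Pi.single i 1)
    rw [LinearMap.comp_apply, Fintype.linearCombination_apply_single, one_smul] at h3
    rw [h3, LinearMap.id_apply, Pi.single_apply]
    simp only [eq_comm]
  set lam : Fin n → (O →ₗ[k] k) := fun j => LinearMap.proj j ∘ₗ F ∘ₗ (MM2 k O).mkQ with hlam
  have hlam2 : ∀ j, ∀ x ∈ MM2 k O, lam j x = 0 := by
    intro j x hx
    have h3 : (MM2 k O).mkQ x = 0 := by
      rw [Submodule.mkQ_apply, Submodule.Quotient.mk_eq_zero]
      exact hx
    rw [hlam, LinearMap.comp_apply, LinearMap.comp_apply, h3, map_zero]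
    rfl
  have hlam1 : ∀ i j, lam j (y i) = if i = j then 1 else 0 := hF2
  -- the differentials
  have hbij := bij_of_local O (Ω[O⁄k]) (fun i => KaehlerDifferential.D k O (y i)) (by
      rw [eq_top_iff, ← KaehlerDifferential.span_range_derivation k O, Submodule.span_le]
      rintro _ ⟨x, rfl⟩
      have h3 : x - algebraMap k O (ev x) ∈ MM k O := by
        rw [mem_MM, ← hev, map_sub, AlgHom.commutes]
        simp
      rw [← h1] at h3
      obtain ⟨w, hw, z, hz, hwz⟩ := Submodule.mem_sup.1 h3
      have h4 : KaehlerDifferential.D k O x = KaehlerDifferential.D k O w +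
          KaehlerDifferential.D k O z := by
        rw [← map_add, hwz, map_sub, Derivation.map_algebraMap, sub_zero]
      rw [h4]
      refine Submodule.add_mem_sup ?_ ?_
      · have h5 : w = ∑ i, (b.repr ⟨w, hw⟩ i) • y i := by
          have h6 := congrArg (fun v : W => (v : O)) (b.sum_repr ⟨w, hw⟩)
          simp only [Submodule.coe_sum, Submodule.coe_smul] at h6
          exact h6.symm
        rw [h5, map_sum]
        refine Submodule.sum_mem _ fun i _ => ?_
        rw [Derivation.map_smul, ← algebraMap_smul O]
        exact Submodule.smul_mem _ _ (Submodule.subset_span ⟨i, rfl⟩)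
      · rw [mem_MM2, pow_two] at hz
        refine Submodule.mul_induction_on hz ?_ ?_
        · intro u hu v hv
          rw [Derivation.leibniz]
          exact Submodule.add_mem _ (Submodule.smul_mem_smul hu (Submodule.subset_span ⟨v, rfl⟩))
            (Submodule.smul_mem_smul hv (Submodule.subset_span ⟨u, rfl⟩))
        · intro u v hu hv
          rw [map_add]
          exact Submodule.add_mem _ hu hv)
    (fun j => (der ev hev (lam j) (hlam2 j)).liftKaehlerDifferential) (by
      intro i j
      rw [Derivation.liftKaehlerDifferential_comp_D, der_apply _ _ _ _ (hyM i), hlam1]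
      split_ifs
      · exact map_one _
      · exact map_zero _)
  -- the base change map
  let _ : Algebra (MvPolynomial (Fin n) k) O :=
    (aeval y : MvPolynomial (Fin n) k →ₐ[k] O).toRingHom.toAlgebra
  have hst : IsScalarTower k (MvPolynomial (Fin n) k) O := by
    refine IsScalarTower.of_algebraMap_eq' ?_
    exact ((aeval y : MvPolynomial (Fin n) k →ₐ[k] O).comp_algebraMap).symm
  change Algebra.FormallyEtale (MvPolynomial (Fin n) k) O
  refine etale_of_bij k (MvPolynomial (Fin n) k) O ?_
  set B0 : Module.Basis (Fin n) O (O ⊗[MvPolynomial (Fin n) k] (Ω[MvPolynomial (Fin n) k⁄k])) :=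
    (KaehlerDifferential.mvPolynomialBasis k (Fin n)).baseChange O with hB0
  have h5 : ∀ v : Fin n → O, KaehlerDifferential.mapBaseChange k (MvPolynomial (Fin n) k) O
      (B0.equivFun.symm v) =
      Fintype.linearCombination O (fun i => KaehlerDifferential.D k O (y i)) v := by
    intro v
    rw [Module.Basis.equivFun_symm_apply, map_sum, Fintype.linearCombination_apply]
    refine Finset.sum_congr rfl fun i _ => ?_
    rw [map_smul, hB0, Module.Basis.baseChange_apply, KaehlerDifferential.mapBaseChange_tmul,
      one_smul, KaehlerDifferential.mvPolynomialBasis_apply, KaehlerDifferential.map_D]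
    congr 2
    exact aeval_X y i
  have h6 : (KaehlerDifferential.mapBaseChange k (MvPolynomial (Fin n) k) O : _ → Ω[O⁄k]) ∘
      B0.equivFun.symm =
      Fintype.linearCombination O (fun i => KaehlerDifferential.D k O (y i)) := funext h5
  have h7 : Function.Bijective ((KaehlerDifferential.mapBaseChange k (MvPolynomial (Fin n) k) O :
      _ → Ω[O⁄k]) ∘ B0.equivFun.symm) := by
    rw [h6]
    exact hbij
  exact (Function.Bijective.of_comp_iff _ B0.equivFun.symm.bijective).1 h7

end

end Pool.Agent.Helper45.SE
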