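import Pool.Agent.Helper45.SE.T2

/-!
# Maschke: a stable complement of the square of the maximal ideal
-/

set_option autoImplicit false
set_option linter.unusedSectionVars false

namespace Pool.Agent.Helper45.SE

section

variable {k O : Type} [Field k] [CommRing O] [Algebra k O] [IsLocalRing O]

/-- A stable complement of the square of the maximal ideal. -/
theorem exists_stable (ev : O →ₐ[k] k) (hev : ∀ x, ev x = 0 ↔ x ∈ IsLocalRing.maximalIdeal O)
    (hfg : (IsLocalRing.maximalIdeal O).FG) (H : Type) [Group H] [Finite H]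
    (hc : (Nat.card H : k) ≠ 0) (r : H →* (O →ₐ[k] O))
    (hr : ∀ h x, x ∈ IsLocalRing.maximalIdeal O → r h x ∈ IsLocalRing.maximalIdeal O) :
    ∃ W : Submodule k O, W ⊔ MM2 k O = MM k O ∧ Disjoint W (MM2 k O) ∧ Module.Finite k W ∧
      ∀ h, ∀ x ∈ W, r h x ∈ W := by
  classical
  have _ := Fintype.ofFinite H
  have hr2 : ∀ h, ∀ x ∈ MM2 k O, r h x ∈ MM2 k O := by
    intro h x hx
    have h1 : IsLocalRing.maximalIdeal O ≤ (IsLocalRing.maximalIdeal O).comap (r h) :=
      fun x hx => hr h x hx
    have h2 : IsLocalRing.maximalIdeal O ^ 2 ≤ (IsLocalRing.maximalIdeal O ^ 2).comap (r h) :=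
      (Ideal.pow_right_mono h1 2).trans (Ideal.le_comap_pow _ _)
    exact h2 hx
  obtain ⟨C, hC⟩ := (MM2 k O).exists_isCompl
  set π : O →ₗ[k] O := C.projection (MM2 k O) hC.symm with hπ
  have hπ1 : ∀ x ∈ MM2 k O, π x = 0 := by
    intro x hx
    rw [hπ, Submodule.projection_apply, (Submodule.projectionOnto_apply_eq_zero_iff hC.symm).2 hx]
    rfl
  have hπ2 : ∀ x, π x - x ∈ MM2 k O := by
    intro x
    rw [← Submodule.projectionOnto_apply_eq_zero_iff hC.symm, map_sub, sub_eq_zero]
    exact Submodule.projectionOnto_apply_left hC.symm _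
  have hinv : ∀ h x, r h (r h⁻¹ x) = x := by
    intro h x
    rw [← AlgHom.mul_apply, ← map_mul, mul_inv_cancel, map_one]
    rfl
  set s : O →ₗ[k] O := (Nat.card H : k)⁻¹ •
    ∑ h : H, (r h).toLinearMap ∘ₗ π ∘ₗ (r h⁻¹).toLinearMap with hs
  have hsa : ∀ x, s x = (Nat.card H : k)⁻¹ • ∑ h : H, r h (π (r h⁻¹ x)) := by
    intro x
    rw [hs, LinearMap.smul_apply, LinearMap.sum_apply]
    rfl
  have ha : ∀ x, s x - x ∈ MM2 k O := by
    intro x
    have h1 : s x - x = (Nat.card H : k)⁻¹ • ∑ h : H, (r h (π (r h⁻¹ x) - r h⁻¹ x)) := by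
      rw [hsa]
      simp only [map_sub, hinv, Finset.sum_sub_distrib, Finset.sum_const, Finset.card_univ,
        smul_sub]
      congr 1
      rw [← Nat.card_eq_fintype_card, ← Nat.cast_smul_eq_nsmul k, smul_smul,
        inv_mul_cancel₀ hc, one_smul]
    rw [h1]
    exact Submodule.smul_mem _ _ (Submodule.sum_mem _ fun h _ => hr2 h _ (hπ2 _))
  have hb : ∀ x ∈ MM2 k O, s x = 0 := by
    intro x hx
    rw [hsa]
    simp only [hπ1 _ (hr2 _ x hx), map_zero, Finset.sum_const_zero, smul_zero]
  have hcc : ∀ g x, r g (s x) = s (r g x) := by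
    intro g x
    rw [hsa, hsa, map_smul, map_sum]
    congr 1
    refine Fintype.sum_equiv (Equiv.mulLeft g) _ _ fun h => ?_
    rw [Equiv.coe_mulLeft, mul_inv_rev, map_mul, map_mul, AlgHom.mul_apply, AlgHom.mul_apply]
    have h1 : r g⁻¹ (r g x) = x := by
      have := hinv g⁻¹ x
      rwa [inv_inv] at this
    rw [h1]
  refine ⟨(MM k O).map s, ?_, ?_, ?_, ?_⟩
  · apply le_antisymm
    · refine sup_le ?_ MM2_le
      rintro _ ⟨x, hx, rfl⟩
      have h1 := (MM k O).add_mem (MM2_le (ha x)) hx
      rwa [sub_add_cancel] at h1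
    · intro x hx
      have h1 := (MM2 k O).neg_mem (ha x)
      rw [neg_sub] at h1
      have h2 := Submodule.add_mem_sup (Submodule.mem_map_of_mem (f := s) hx) h1
      rwa [add_sub_cancel] at h2
  · rw [Submodule.disjoint_def]
    rintro _ ⟨x, hx, rfl⟩ h1
    apply hb
    have h2 := (MM2 k O).sub_mem h1 (ha x)
    rwa [sub_sub_cancel] at h2
  · obtain ⟨t, ht⟩ := hfg
    have h1 : MM k O ≤ Submodule.span k (t : Set O) ⊔ MM2 k O := by
      intro x hx
      rw [mem_MM, ← ht] at hx
      have h2 : x ∈ MM k O ∧ x ∈ Submodule.span k (t : Set O) ⊔ MM2 k O := by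
        refine Submodule.span_induction ?_ ?_ ?_ ?_ hx
        · intro x hx
          refine ⟨?_, Submodule.mem_sup_left (Submodule.subset_span hx)⟩
          rw [mem_MM, ← ht]
          exact Submodule.subset_span hx
        · exact ⟨Submodule.zero_mem _, Submodule.zero_mem _⟩
        · intro x y _ _ h1 h2
          exact ⟨Submodule.add_mem _ h1.1 h2.1, Submodule.add_mem _ h1.2 h2.2⟩
        · intro a x _ h1
          refine ⟨Ideal.mul_mem_left _ _ h1.1, ?_⟩
          have h3 : a • x = ev a • x + (a - algebraMap k O (ev a)) * x := by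
            rw [smul_eq_mul, Algebra.smul_def]
            ring
          rw [h3]
          refine Submodule.add_mem _ (Submodule.smul_mem _ _ h1.2) (Submodule.mem_sup_right ?_)
          rw [mem_MM2, pow_two]
          refine Ideal.mul_mem_mul ?_ h1.1
          rw [← hev, map_sub, AlgHom.commutes]
          simp
      exact h2.2
    have h2 : (MM k O).map s ≤ Submodule.span k (s '' (t : Set O)) := by
      refine (Submodule.map_mono h1).trans ?_
      rw [Submodule.map_sup, Submodule.map_span]
      refine sup_le le_rfl ?_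
      rintro _ ⟨x, hx, rfl⟩
      rw [hb x hx]
      exact Submodule.zero_mem _
    have h3 : FiniteDimensional k (Submodule.span k (s '' (t : Set O))) :=
      FiniteDimensional.span_of_finite k ((Finset.finite_toSet t).image s)
    exact Submodule.finiteDimensional_of_le h2
  · rintro h _ ⟨x, hx, rfl⟩
    rw [hcc]
    exact Submodule.mem_map_of_mem (hr h x hx)

end

end Pool.Agent.Helper45.SE
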