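import Pool.Agent.Helper45.SE.T3
import Pool.Agent.Helper18.SE.Loc
import Pool.Agent.Helper49.SE.El1

/-!
# Package TAME: tame inertia groups are linear in etale coordinates
-/

set_option autoImplicit false
set_option linter.unusedSectionVars false

namespace Pool.Agent.Helper45.SE

open MvPolynomial Pool.Agent.W559.Mg Pool.Agent.W559.Et Pool.Agent.Helper49.SQ
  Pool.Agent.Helper49.SE

/-- The evaluation at the closed point. -/
theorem exists_ev (k O : Type) [Field k] [CommRing O] [Algebra k O] [IsLocalRing O]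
    (h : ∀ x : O, ∃ c : k, x - algebraMap k O c ∈ IsLocalRing.maximalIdeal O) :
    ∃ ev : O →ₐ[k] k, ∀ x, ev x = 0 ↔ x ∈ IsLocalRing.maximalIdeal O := by
  have hb : Function.Bijective (Algebra.ofId k (O ⧸ IsLocalRing.maximalIdeal O)) := by
    refine ⟨(algebraMap k (O ⧸ IsLocalRing.maximalIdeal O)).injective, fun y => ?_⟩
    obtain ⟨x, rfl⟩ := Ideal.Quotient.mk_surjective y
    obtain ⟨c, hc⟩ := h x
    refine ⟨c, ?_⟩
    have h1 := Ideal.Quotient.eq_zero_iff_mem.2 hc
    rw [map_sub, sub_eq_zero] at h1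
    exact h1.symm
  refine ⟨(AlgEquiv.ofBijective _ hb).symm.toAlgHom.comp
    (Ideal.Quotient.mkₐ k (IsLocalRing.maximalIdeal O)), fun x => ?_⟩
  rw [← Ideal.Quotient.eq_zero_iff_mem]
  change (AlgEquiv.ofBijective _ hb).symm (Ideal.Quotient.mk _ x) = 0 ↔ _
  exact map_eq_zero_iff _ (AlgEquiv.injective _)

theorem tame : Pool.Agent.Helper49.SE.TameStm := by
  classical
  intro k K _ _ _ _ G _ _ ρ B hB m hm H hH hc
  obtain ⟨O, hO⟩ : ∃ O : Subalgebra k K, O = locR B m hm.isPrime := ⟨_, rfl⟩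
  have hBft : Algebra.FiniteType k B := inferInstance
  have hloc : IsLocalRing O := hO ▸ Helper18.SE.isLocal B m hm.isPrime
  have hfs : Algebra.FormallySmooth k O := hO ▸ Helper18.SE.smooth B m hm.isPrime hB
  have hess : Algebra.EssFiniteType k O := hO ▸ Helper18.SE.ess B m hm.isPrime hBft
  have hnoeth : IsNoetherianRing O := Algebra.EssFiniteType.isNoetherianRing k O
  have hres : ∀ x : O, ∃ c : k, x - algebraMap k O c ∈ IsLocalRing.maximalIdeal O := by
    subst hO
    exact Helper18.SE.resid B m hm.isPrime hBft hm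
  rw [← hO] at hH ⊢
  obtain ⟨ev, hev⟩ := exists_ev k O hres
  have hnu : ∀ z : K, ∀ hz : z ∈ O, (∀ x' ∈ O, z * x' ≠ 1) →
      (⟨z, hz⟩ : O) ∈ IsLocalRing.maximalIdeal O := by
    intro z hz h1
    rw [IsLocalRing.mem_maximalIdeal, mem_nonunits_iff, isUnit_iff_exists_inv]
    rintro ⟨x', hx'⟩
    exact h1 x' x'.2 (congrArg (fun v : O => (v : K)) hx')
  -- the action
  let r0 : H → (O →ₐ[k] O) := fun h =>
    (((ρ (h : G) : K ≃ₐ[k] K) : K →ₐ[k] K).comp O.val).codRestrict O
      fun x => (((hH h).1 h.2) x x.2).1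
  have hr0 : ∀ (h : H) (x : O), ((r0 h x : O) : K) = ρ (h : G) (x : K) := fun _ _ => rfl
  let r : H →* (O →ₐ[k] O) :=
    { toFun := r0
      map_one' := by
        apply AlgHom.ext
        intro x
        apply Subtype.ext
        rw [hr0, OneMemClass.coe_one, map_one]
        rfl
      map_mul' := fun a b => by
        apply AlgHom.ext
        intro x
        apply Subtype.ext
        rw [hr0, Subgroup.coe_mul, map_mul, AlgHom.mul_apply, hr0, hr0]
        rfl }
  obtain ⟨W, h1, h2, h3, h4⟩ := exists_stable ev hev (IsNoetherian.noetherian _) H hc r (by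
    intro h x hx
    have h5 : r h x = (r h x - x) + x := by ring
    rw [h5]
    refine Ideal.add_mem _ ?_ hx
    have h6 := hnu (ρ (h : G) (x : K) - x) (O.sub_mem (((hH h).1 h.2) x x.2).1 x.2)
      (((hH h).1 h.2) x x.2).2
    exact h6)
  refine ⟨Module.finrank k W, fun i => (Module.finBasis k W i : O), ?_, ?_⟩
  · exact etale_of_basis ev hev W h1 h2 (Module.finBasis k W)
  · intro g hg i
    have h5 := h4 ⟨g, (hH g).2 hg⟩ _ (Module.finBasis k W i).2
    have h6 := (Module.finBasis k W).sum_repr ⟨_, h5⟩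
    have h7 := congrArg (fun v : W => ((v : O) : K)) h6
    simp only [Submodule.coe_smul, AddSubmonoidClass.coe_finsetSum,
      Subalgebra.coe_smul] at h7
    have h8 : ρ g ((Module.finBasis k W i : O) : K) =
        ((r ⟨g, (hH g).2 hg⟩ (Module.finBasis k W i : O) : O) : K) := rfl
    rw [h8, ← h7]
    exact Submodule.sum_mem _ fun j _ => Submodule.smul_mem _ _ (Submodule.subset_span ⟨j, rfl⟩)

end Pool.Agent.Helper45.SE
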